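import Pool.Agent.Y202.HM.Law

/-!
# Project HM: the grid event is measurable and has positive probability (job HM-GP)
-/

set_option autoImplicit false

open MeasureTheory ProbabilityTheory UpperHalfPlane Pool.Agent.Y979.HV Pool.Agent.Y979.HM
open scoped ENNReal

namespace Pool.Agent.Y202.HM

universe u

noncomputable section

lemma meas_coe : Measurable (fun z : ℍ => (z : ℂ)) := UpperHalfPlane.continuous_coe.measurable

lemma meas_norm : Measurable (fun z : ℍ => ‖(z : ℂ)‖) := measurable_norm.comp meas_coe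

lemma meas_sc : Measurable sc := Real.measurable_log.comp meas_norm

lemma meas_arg : Measurable (fun z : ℍ => Complex.arg (z : ℂ)) :=
  Complex.measurable_arg.comp meas_coe

lemma meas_im : Measurable (fun z : ℍ => z.im) := UpperHalfPlane.continuous_im.measurable

lemma Zl_meas (κ : ℝ) : MeasurableSet (Zl κ) := by
  unfold Zl
  exact (measurableSet_lt meas_sc.abs measurable_const).inter
    (measurableSet_lt meas_im (meas_norm.const_mul _))

lemma Zh_meas (κ : ℝ) : MeasurableSet (Zh κ) := by
  unfold Zh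
  exact (measurableSet_lt meas_sc.abs measurable_const).inter
    (measurableSet_le (meas_norm.const_mul _) meas_im)

lemma gbox_meas (κ η : ℝ) (k : ℤ) (j : Fin 4) : MeasurableSet (gbox κ η k j) := by
  unfold gbox
  exact (measurableSet_lt (meas_sc.sub_const _).abs measurable_const).inter
    (measurableSet_lt (meas_arg.sub_const _).abs measurable_const)

lemma gboxes_meas (κ η : ℝ) : MeasurableSet (gboxes κ η) := by
  unfold gboxes
  exact MeasurableSet.iUnion fun k => MeasurableSet.iUnion fun _ => MeasurableSet.iUnion fun j =>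
    gbox_meas κ η k j

lemma row_mem {κ : ℝ} (h0 : 0 < κ) (h1 : κ ≤ 1 / 100) (j : Fin 4) :
    κ ≤ row κ j ∧ row κ j ≤ Real.pi - κ := by
  have hpi := Real.pi_gt_three
  fin_cases j <;> simp only [row, Fin.zero_eta, Fin.mk_one, Fin.reduceFinMk, Matrix.cons_val_zero,
      Matrix.cons_val_one, Matrix.cons_val] <;> constructor <;> linarith

lemma row_sep {κ : ℝ} (h0 : 0 < κ) (h1 : κ ≤ 1 / 100) {i j : Fin 4} (h : i ≠ j) :
    κ < |row κ i - row κ j| := by
  have hpi := Real.pi_gt_three
  fin_cases i <;> fin_cases j <;> first | exact absurd rfl h | skip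
  all_goals
    simp only [row, Fin.zero_eta, Fin.mk_one, Fin.reduceFinMk, Matrix.cons_val_zero,
      Matrix.cons_val_one, Matrix.cons_val]
    rw [lt_abs]
    first
      | left; linarith
      | right; linarith

lemma eta_small {κ η : ℝ} (h0 : 0 < κ) (h1 : κ ≤ 1 / 100) (h3 : η ≤ κ ^ 3) : 2 * η < κ := by
  have : κ ^ 2 ≤ 1 / 10000 := by nlinarith
  nlinarith [mul_nonneg h0.le (sq_nonneg κ)]

lemma gbox_sub {κ η : ℝ} (h0 : 0 < κ) (h1 : κ ≤ 1 / 100) (h2 : 0 < η) (h3 : η ≤ κ ^ 3) {k : ℤ}
    (hk : |(k : ℝ) * κ| ≤ 7 / 2) (j : Fin 4) : gbox κ η k j ⊆ Zh κ := by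
  rintro z ⟨hz1, hz2⟩
  have hη := eta_small h0 h1 h3
  have hr := row_mem h0 h1 j
  rw [abs_lt] at hz1 hz2
  rw [abs_le] at hk
  refine ⟨?_, ?_⟩
  · rw [abs_lt]
    constructor <;> linarith
  · have him : z.im = ‖(z : ℂ)‖ * Real.sin (Complex.arg (z : ℂ)) := by
      rw [Complex.norm_mul_sin_arg]
      rfl
    rw [him, mul_comm]
    refine mul_le_mul_of_nonneg_left ?_ (norm_nonneg _)
    by_cases hh : Complex.arg (z : ℂ) ≤ Real.pi / 2
    · exact Real.sin_le_sin_of_le_of_le_pi_div_two (by linarith [Real.pi_pos]) hh (by linarith)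
    · rw [not_le] at hh
      rw [← Real.sin_pi_sub (Complex.arg (z : ℂ))]
      exact Real.sin_le_sin_of_le_of_le_pi_div_two (by linarith [Real.pi_pos]) (by linarith)
        (by linarith)

lemma gbox_disj {κ η : ℝ} (h0 : 0 < κ) (h1 : κ ≤ 1 / 100) (h3 : η ≤ κ ^ 3)
    {k k' : ℤ} {j j' : Fin 4} (h : (k, j) ≠ (k', j')) :
    Disjoint (gbox κ η k j) (gbox κ η k' j') := by
  rw [Set.disjoint_left]
  rintro z ⟨a1, a2⟩ ⟨b1, b2⟩
  have hη := eta_small h0 h1 h3
  have hk : k = k' := by
    have : |((k : ℝ) - k') * κ| < κ := by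
      rw [abs_lt] at *
      constructor <;> nlinarith
    rw [abs_mul, abs_of_pos h0] at this
    have h5 : |(k : ℝ) - k'| < 1 := by
      by_contra hh
      rw [not_lt] at hh
      nlinarith
    have h6 : |k - k'| < 1 := by exact_mod_cast h5
    have := Int.abs_lt_one_iff.1 h6
    omega
  subst hk
  have hj : j ≠ j' := fun hh => h (by rw [hh])
  have := row_sep h0 h1 hj
  have h7 : |row κ j - row κ j'| < 2 * η := by
    rw [abs_lt] at *
    constructor <;> linarith
  linarith

lemma fin_k {κ : ℝ} (h0 : 0 < κ) : {k : ℤ | |(k : ℝ) * κ| ≤ 7 / 2}.Finite := by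
  refine (Set.finite_Icc (-⌈7 / 2 / κ⌉) ⌈7 / 2 / κ⌉).subset fun k hk => ?_
  have hk' : |(k : ℝ)| * κ ≤ 7 / 2 := by
    have : |(k : ℝ) * κ| ≤ 7 / 2 := hk
    rwa [abs_mul, abs_of_pos h0] at this
  have h1 : |(k : ℝ)| ≤ 7 / 2 / κ := by rwa [le_div_iff₀ h0]
  rw [abs_le] at h1
  have h2 := Int.le_ceil (7 / 2 / κ)
  constructor
  · have : (-(⌈7 / 2 / κ⌉ : ℤ) : ℝ) ≤ k := by linarith
    exact_mod_cast this
  · have : (k : ℝ) ≤ ⌈7 / 2 / κ⌉ := by linarith
    exact_mod_cast this

lemma Zh_vol {κ : ℝ} (h0 : 0 < κ) (h1 : κ ≤ 1 / 100) : volume (Zh κ) ≠ ⊤ := by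
  have hs : 0 < Real.sin (κ / 2) := Real.sin_pos_of_pos_of_lt_pi (by linarith)
    (by linarith [Real.pi_gt_three])
  have hc : 0 < Real.sin (κ / 2) * Real.exp (-4) := by positivity
  have hsub : Zh κ ⊆ box (Set.Icc (-Real.exp 4) (Real.exp 4)) (Real.sin (κ / 2) * Real.exp (-4))
      (Real.exp 4 + 1) := by
    rintro z ⟨a1, a2⟩
    rw [abs_lt] at a1
    have e1 : ‖(z : ℂ)‖ ≤ Real.exp 4 := by
      rw [← exp_sc]
      exact Real.exp_le_exp.2 a1.2.le
    have e2 : Real.exp (-4) ≤ ‖(z : ℂ)‖ := by
      rw [← exp_sc]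
      exact Real.exp_le_exp.2 a1.1.le
    have e3 := abs_re_le_norm z
    have e4 := im_le_norm z
    rw [abs_le] at e3
    refine ⟨⟨by linarith, by linarith⟩, ⟨?_, by linarith⟩⟩
    exact (mul_le_mul_of_nonneg_left e2 hs.le).trans a2
  refine ((measure_mono hsub).trans_lt ?_).ne
  rw [volume_box measurableSet_Icc hc]
  · rw [Real.volume_Icc]
    exact ENNReal.mul_lt_top ENNReal.ofReal_lt_top ENNReal.ofReal_lt_top
  · have : Real.sin (κ / 2) ≤ 1 := Real.sin_le_one _
    have h5 : Real.exp (-4) ≤ 1 := Real.exp_le_one_iff.2 (by norm_num)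
    have h6 : 0 < Real.exp 4 := Real.exp_pos _
    have h7 : 0 < Real.exp (-4) := Real.exp_pos _
    nlinarith

lemma open_vol_pos {U : Set ℍ} (hU : IsOpen U) (hne : U.Nonempty) : 0 < volume U := by
  obtain ⟨z, hz⟩ := hne
  have hUo : IsOpen (UpperHalfPlane.coe '' U) :=
    UpperHalfPlane.isOpenEmbedding_coe.isOpenMap U hU
  obtain ⟨ε, hε, hb⟩ := Metric.isOpen_iff.1 hUo (z : ℂ) ⟨z, hz, rfl⟩
  have hsub : box (Set.Ico z.re (z.re + ε / 2)) z.im (z.im + ε / 2) ⊆ U := by
    rintro w ⟨w1, w2⟩
    have : (w : ℂ) ∈ Metric.ball (z : ℂ) ε := by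
      rw [Metric.mem_ball, dist_eq_norm]
      refine (Complex.norm_le_abs_re_add_abs_im _).trans_lt ?_
      rw [Complex.sub_re, Complex.sub_im]
      have h1 : |(w : ℂ).re - (z : ℂ).re| < ε / 2 := by
        have a1 : z.re ≤ w.re := w1.1
        have a2 : w.re < z.re + ε / 2 := w1.2
        show |w.re - z.re| < ε / 2
        rw [abs_lt]
        constructor <;> linarith
      have h2 : |(w : ℂ).im - (z : ℂ).im| < ε / 2 := by
        have a1 : z.im ≤ w.im := w2.1
        have a2 : w.im < z.im + ε / 2 := w2.2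
        show |w.im - z.im| < ε / 2
        rw [abs_lt]
        constructor <;> linarith
      linarith
    obtain ⟨w', hw', he⟩ := hb this
    rwa [UpperHalfPlane.ext he] at hw'
  refine lt_of_lt_of_le ?_ (measure_mono hsub)
  have h2 : 0 < ε / 2 := by linarith
  rw [volume_box measurableSet_Ico z.im_pos (by linarith), Real.volume_Ico]
  refine ENNReal.mul_pos ?_ ?_
  · rw [ne_eq, ENNReal.ofReal_eq_zero, not_le]
    linarith
  · rw [ne_eq, ENNReal.ofReal_eq_zero, not_le, sub_pos]
    exact one_div_lt_one_div_of_lt z.im_pos (by linarith)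

lemma gbox_open {κ η : ℝ} (k : ℤ) (j : Fin 4) : IsOpen (gbox κ η k j) := by
  have h1 : Continuous sc := by
    unfold sc
    refine Continuous.log (continuous_norm.comp UpperHalfPlane.continuous_coe) fun z => ?_
    exact (norm_pos' z).ne'
  have h2 : Continuous (fun z : ℍ => Complex.arg (z : ℂ)) := by
    rw [continuous_iff_continuousAt]
    intro z
    refine ContinuousAt.comp (g := Complex.arg) (Complex.continuousAt_arg ?_)
      UpperHalfPlane.continuous_coe.continuousAt
    exact Or.inr z.im_pos.ne'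
  unfold gbox
  exact (isOpen_lt (h1.sub continuous_const).abs continuous_const).inter
    (isOpen_lt (h2.sub continuous_const).abs continuous_const)

lemma gbox_ne {κ η : ℝ} (h0 : 0 < κ) (h1 : κ ≤ 1 / 100) (h2 : 0 < η) (k : ℤ) (j : Fin 4) :
    (gbox κ η k j).Nonempty := by
  have hr := row_mem h0 h1 j
  have hsin : 0 < Real.sin (row κ j) := Real.sin_pos_of_pos_of_lt_pi (by linarith) (by linarith)
  let w : ℂ := (Real.exp (k * κ) : ℂ) * (Complex.cos (row κ j) + Complex.sin (row κ j) * Complex.I)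
  have hw : w = (Real.exp (k * κ) : ℂ) *
    ((Real.cos (row κ j) : ℂ) + (Real.sin (row κ j) : ℂ) * Complex.I) := by
    simp [w]
  have him : 0 < w.im := by
    have e : w.im = Real.exp (k * κ) * Real.sin (row κ j) := by
      rw [hw, Complex.im_ofReal_mul, Complex.add_im, Complex.ofReal_im, Complex.im_ofReal_mul,
        Complex.I_im, mul_one, zero_add]
    rw [e]
    exact mul_pos (Real.exp_pos _) hsin
  refine ⟨⟨w, him⟩, ?_, ?_⟩
  · have hn : ‖w‖ = Real.exp (k * κ) := by
      simp only [w, norm_mul]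
      rw [Complex.norm_cos_add_sin_mul_I, mul_one, Complex.norm_real, Real.norm_eq_abs,
        abs_of_pos (Real.exp_pos _)]
    show |Real.log ‖w‖ - k * κ| < η
    rw [hn, Real.log_exp, sub_self, abs_zero]
    exact h2
  · show |Complex.arg w - row κ j| < η
    rw [Complex.arg_mul_cos_add_sin_mul_I (Real.exp_pos _) ⟨by linarith [Real.pi_pos], by linarith⟩,
      sub_self, abs_zero]
    exact h2

open Classical in
/-- the family of sets whose counts define the grid event -/
def fam (κ η : ℝ) : Option (ℤ × Fin 4) → Set ℍ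
  | none => Zh κ \ gboxes κ η
  | some i => if |(i.1 : ℝ) * κ| ≤ 7 / 2 then gbox κ η i.1 i.2 else ∅

/-- the required counts -/
def tgt : Option (ℤ × Fin 4) → ℕ
  | none => 0
  | some _ => 1

theorem gp : S_GP.{u} := by
  classical
  intro Ω _ P _ lam Q hQ hlam κ η h0 h1 h2 h3
  refine ⟨Zl_meas κ, Zh_meas κ, ?_, ?_⟩
  · -- measurability
    have hc : ∀ (B : Set ℍ) (s : Set ℕ∞), MeasurableSet B → B ⊆ Zh κ →
        MeasurableSet[cs (Zh κ)] {A : Conf | (pts A ∩ B).encard ∈ s} := by
      intro B s hB hBZ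
      have : MeasurableSpace.comap (fun A : Conf => (pts A ∩ B).encard) inferInstance ≤
          cs (Zh κ) := le_iSup₂_of_le B ⟨hB, hBZ⟩ le_rfl
      exact this _ ⟨s, (Set.to_countable _).measurableSet, rfl⟩
    have hE : MeasurableSet[cs (Zh κ)] {A : Conf | GridOK κ η (pts A)} := by
      have e : {A : Conf | GridOK κ η (pts A)} =
          (⋂ k : ℤ, ⋂ _ : |(k : ℝ) * κ| ≤ 7 / 2, ⋂ j : Fin 4,
            {A : Conf | (pts A ∩ gbox κ η k j).encard ∈ ({1} : Set ℕ∞)}) ∩
            {A : Conf | (pts A ∩ (Zh κ \ gboxes κ η)).encard ∈ ({0} : Set ℕ∞)} := by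
        ext A
        simp only [GridOK, Set.mem_ofPred_eq, Set.mem_inter_iff, Set.mem_iInter,
          Set.mem_singleton_iff, Set.encard_eq_zero]
      rw [e]
      refine @MeasurableSet.inter _ (cs (Zh κ)) _ _ ?_ ?_
      · refine @MeasurableSet.iInter _ _ (cs (Zh κ)) _ _ fun k => ?_
        refine @MeasurableSet.iInter _ _ (cs (Zh κ)) _ _ fun hk => ?_
        refine @MeasurableSet.iInter _ _ (cs (Zh κ)) _ _ fun j => ?_
        exact hc _ _ (gbox_meas κ η k j) (gbox_sub h0 h1 h2 h3 hk j)
      · exact hc _ _ ((Zh_meas κ).diff (gboxes_meas κ η)) Set.sdiff_subset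
    exact ⟨_, hE, rfl⟩
  · -- positive probability
    have hfm : ∀ i, MeasurableSet (fam κ η i) := by
      rintro (_ | i)
      · exact (Zh_meas κ).diff (gboxes_meas κ η)
      · unfold fam
        dsimp only
        split_ifs
        · exact gbox_meas κ η _ _
        · exact MeasurableSet.empty
    have hsubg : ∀ i : ℤ × Fin 4, fam κ η (some i) ⊆ gboxes κ η := by
      intro i
      unfold fam
      dsimp only
      split_ifs with hk
      · intro z hz
        simp only [gboxes, Set.mem_iUnion]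
        exact ⟨i.1, hk, i.2, hz⟩
      · exact Set.empty_subset _
    have hfd : Pairwise (fun i j => Disjoint (fam κ η i) (fam κ η j)) := by
      rintro (_ | i) (_ | j) hij
      · exact absurd rfl hij
      · exact (Set.disjoint_sdiff_left).mono_right (hsubg j)
      · exact (Set.disjoint_sdiff_right).mono_left (hsubg i)
      · unfold fam
        dsimp only
        split_ifs
        · exact gbox_disj h0 h1 h3 fun h => hij (by rw [show i = j from h])
        all_goals simp
    have hind := iIndep_counts hQ hfm hfd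
    rw [iIndepFun_iff_measure_inter_preimage_eq_mul] at hind
    let S : Finset (Option (ℤ × Fin 4)) :=
      Finset.insertNone ((fin_k h0).toFinset ×ˢ Finset.univ)
    have hS := hind S (sets := fun i => {(tgt i : ℕ∞)}) (fun i _ => measurableSet_singleton _)
    have e : {ω | GridOK κ η (Q ω)} =
        ⋂ i ∈ S, (fun ω => (Q ω ∩ fam κ η i).encard) ⁻¹' {(tgt i : ℕ∞)} := by
      ext ω
      simp only [GridOK, Set.mem_ofPred_eq, Set.mem_iInter, Set.mem_preimage,
        Set.mem_singleton_iff]
      constructor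
      · rintro ⟨a1, a2⟩ (_ | i) hi
        · simp only [fam, tgt, Nat.cast_zero, Set.encard_eq_zero]
          exact a2
        · have hk : |(i.1 : ℝ) * κ| ≤ 7 / 2 := by
            rw [Finset.some_mem_insertNone, Finset.mem_product, Set.Finite.mem_toFinset] at hi
            exact hi.1
          simp only [fam, tgt, Nat.cast_one]
          rw [if_pos hk]
          exact a1 _ hk _
      · intro a
        constructor
        · intro k hk j
          have := a (some (k, j)) (by
            rw [Finset.some_mem_insertNone, Finset.mem_product, Set.Finite.mem_toFinset]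
            exact ⟨hk, Finset.mem_univ _⟩)
          simp only [fam, tgt, Nat.cast_one] at this
          rw [if_pos hk] at this
          exact this
        · have := a none (Finset.none_mem_insertNone)
          simp only [fam, tgt, Nat.cast_zero, Set.encard_eq_zero] at this
          exact this
    rw [e, hS]
    rw [pos_iff_ne_zero, Finset.prod_ne_zero_iff]
    rintro (_ | i) hi
    · have hv : volume (fam κ η none) ≠ ⊤ :=
        ((measure_mono Set.sdiff_subset).trans_lt (Zh_vol h0 h1).lt_top).ne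
      have := hQ.law_count _ (hfm none) hv 0
      have e2 : (fun ω => (Q ω ∩ fam κ η none).encard) ⁻¹' {(tgt none : ℕ∞)} =
          {ω | (Q ω ∩ fam κ η none).encard = ((0 : ℕ) : ℕ∞)} := rfl
      rw [e2, this]
      simp [Real.exp_pos]
    · have hk : |(i.1 : ℝ) * κ| ≤ 7 / 2 := by
        rw [Finset.some_mem_insertNone, Finset.mem_product, Set.Finite.mem_toFinset] at hi
        exact hi.1
      have hf : fam κ η (some i) = gbox κ η i.1 i.2 := by
        simp only [fam]
        rw [if_pos hk]
      have hv : volume (gbox κ η i.1 i.2) ≠ ⊤ :=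
        ((measure_mono (gbox_sub h0 h1 h2 h3 hk i.2)).trans_lt (Zh_vol h0 h1).lt_top).ne
      have hv0 : 0 < volume (gbox κ η i.1 i.2) :=
        open_vol_pos (gbox_open _ _) (gbox_ne h0 h1 h2 _ _)
      have hpos : 0 < lam * (volume (gbox κ η i.1 i.2)).toReal :=
        mul_pos hlam (ENNReal.toReal_pos hv0.ne' hv)
      have := hQ.law_count _ (gbox_meas κ η i.1 i.2) hv 1
      have e2 : (fun ω => (Q ω ∩ fam κ η (some i)).encard) ⁻¹' {(tgt (some i) : ℕ∞)} =
          {ω | (Q ω ∩ gbox κ η i.1 i.2).encard = ((1 : ℕ) : ℕ∞)} := by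
        rw [hf]
        rfl
      rw [e2, this]
      rw [ne_eq, ENNReal.ofReal_eq_zero, not_le]
      positivity

end

end Pool.Agent.Y202.HM
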