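import Pool.Agent.Y979.HM.Stm

/-!
# Project HM: the energy inequality on a finite set (job HM-KEY)
-/

set_option autoImplicit false

open MeasureTheory
open scoped ENNReal

namespace Pool.Agent.Y202.HM

open Pool.Agent.Y979.HM

noncomputable section

variable {V : Type}

/-- energy density -/
def ee (G : SimpleGraph V) (f : V → ℝ) (p : V × V) : ℝ :=
  open Classical in if G.Adj p.1 p.2 then (f p.1 - f p.2) ^ 2 else 0

/-- density of the bilinear form -/
def cc (G : SimpleGraph V) (f g : V → ℝ) (p : V × V) : ℝ :=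
  open Classical in if G.Adj p.1 p.2 then (f p.1 - f p.2) * (g p.1 - g p.2) else 0

/-- real energy -/
def E (G : SimpleGraph V) (f : V → ℝ) : ℝ := ∑' p, ee G f p

/-- the bilinear form -/
def D (G : SimpleGraph V) (f g : V → ℝ) : ℝ := ∑' p, cc G f g p

lemma ee_nonneg (G : SimpleGraph V) (f : V → ℝ) (p : V × V) : 0 ≤ ee G f p := by
  unfold ee
  split_ifs
  · positivity
  · exact le_rfl

lemma E_nonneg (G : SimpleGraph V) (f : V → ℝ) : 0 ≤ E G f := tsum_nonneg (ee_nonneg G f)

lemma En_eq' (G : SimpleGraph V) (f : V → ℝ) : En G f = ∑' p, ENNReal.ofReal (ee G f p) := by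
  unfold En ee
  refine tsum_congr fun p => ?_
  split_ifs <;> simp

lemma summable_of_En {G : SimpleGraph V} {f : V → ℝ} (h : En G f < ⊤) : Summable (ee G f) := by
  rw [En_eq'] at h
  have := ENNReal.summable_toReal h.ne
  refine this.congr fun p => ?_
  rw [ENNReal.toReal_ofReal (ee_nonneg G f p)]

lemma En_eq {G : SimpleGraph V} {f : V → ℝ} (h : Summable (ee G f)) :
    En G f = ENNReal.ofReal (E G f) := by
  rw [En_eq', E, ENNReal.ofReal_tsum_of_nonneg (ee_nonneg G f) h]

lemma cc_summable {G : SimpleGraph V} {f g : V → ℝ} (hf : Summable (ee G f))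
    (hg : Summable (ee G g)) : Summable (cc G f g) := by
  refine Summable.of_norm_bounded (hf.add hg) fun p => ?_
  unfold cc ee
  split_ifs
  · rw [Real.norm_eq_abs, abs_le]
    constructor
    · nlinarith [sq_nonneg ((f p.1 - f p.2) + (g p.1 - g p.2)), sq_nonneg (f p.1 - f p.2), sq_nonneg (g p.1 - g p.2)]
    · nlinarith [sq_nonneg ((f p.1 - f p.2) - (g p.1 - g p.2)), sq_nonneg (f p.1 - f p.2), sq_nonneg (g p.1 - g p.2)]
  · simp

lemma ee_add (G : SimpleGraph V) (f g : V → ℝ) (c : ℝ) (p : V × V) :
    ee G (fun v => f v + c * g v) p = ee G f p + 2 * c * cc G f g p + c ^ 2 * ee G g p := by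
  unfold cc ee
  split_ifs
  · ring
  · ring

lemma summable_add {G : SimpleGraph V} {f g : V → ℝ} (c : ℝ) (hf : Summable (ee G f))
    (hg : Summable (ee G g)) : Summable (ee G (fun v => f v + c * g v)) := by
  refine (((hf.add ((cc_summable hf hg).mul_left (2 * c))).add (hg.mul_left (c ^ 2)))).congr
    fun p => ?_
  rw [ee_add]

lemma E_add {G : SimpleGraph V} {f g : V → ℝ} (c : ℝ) (hf : Summable (ee G f))
    (hg : Summable (ee G g)) :
    E G (fun v => f v + c * g v) = E G f + 2 * c * D G f g + c ^ 2 * E G g := by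
  unfold E D
  rw [← tsum_mul_left, ← tsum_mul_left,
    ← hf.tsum_add ((cc_summable hf hg).mul_left (2 * c)),
    ← (hf.add ((cc_summable hf hg).mul_left (2 * c))).tsum_add (hg.mul_left (c ^ 2))]
  exact tsum_congr fun p => ee_add G f g c p

/-- half of the bilinear form -/
def aa (G : SimpleGraph V) (f g : V → ℝ) (p : V × V) : ℝ :=
  open Classical in if G.Adj p.1 p.2 then (f p.1 - f p.2) * g p.1 else 0

lemma cc_eq (G : SimpleGraph V) (f g : V → ℝ) (p : V × V) :
    cc G f g p = aa G f g p + aa G f g p.swap := by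
  unfold cc aa
  by_cases h : G.Adj p.1 p.2
  · have h' : G.Adj p.swap.1 p.swap.2 := by simpa using h.symm
    rw [if_pos h, if_pos h, if_pos h']
    simp only [Prod.fst_swap, Prod.snd_swap]
    ring
  · have h' : ¬ G.Adj p.swap.1 p.swap.2 := fun h' => h (by simpa using h'.symm)
    rw [if_neg h, if_neg h, if_neg h']
    ring

lemma aa_supp {G : SimpleGraph V} (hG : LF G) (f g : V → ℝ) (W : Finset V)
    (hg : ∀ v, v ∉ W → g v = 0) : (Function.support (aa G f g)).Finite := by
  have : (⋃ v ∈ (W : Set V), (fun z => (v, z)) '' (G.neighborSet v)).Finite :=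
    W.finite_toSet.biUnion fun v _ => (hG v).image _
  refine this.subset fun p hp => ?_
  rw [Function.mem_support] at hp
  unfold aa at hp
  split_ifs at hp with h
  · have h1 : p.1 ∈ W := by
      by_contra hn
      exact hp (by rw [hg _ hn, mul_zero])
    refine Set.mem_biUnion (x := p.1) h1 ⟨p.2, h, rfl⟩
  · exact absurd rfl hp

lemma aa_tsum {G : SimpleGraph V} (hG : LF G) (f g : V → ℝ) (W : Finset V)
    (hg : ∀ v, v ∉ W → g v = 0) : ∑' p, aa G f g p = ∑ v ∈ W, g v * lap G f v := by
  have hs : Summable (aa G f g) := summable_of_hasFiniteSupport (aa_supp hG f g W hg)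
  rw [hs.tsum_prod' (fun v => hs.prod_factor v)]
  have h1 : ∀ v, ∑' z, aa G f g (v, z) = g v * lap G f v := by
    intro v
    have h2 : lap G f v = ∑' z, (G.neighborSet v).indicator (fun z => f v - f z) z := by
      unfold lap
      rw [finsum_mem_def]
      exact (tsum_eq_finsum ((hG v).subset Set.support_indicator_subset)).symm
    rw [h2, ← tsum_mul_left]
    refine tsum_congr fun z => ?_
    unfold aa
    by_cases h : G.Adj v z
    · rw [if_pos h, Set.indicator_of_mem (by exact h)]
      ring
    · rw [if_neg h, Set.indicator_of_notMem (by exact h)]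
      ring
  simp_rw [h1]
  exact tsum_eq_sum fun v hv => by rw [hg v hv, zero_mul]

lemma D_eq {G : SimpleGraph V} (hG : LF G) (f g : V → ℝ) (W : Finset V)
    (hg : ∀ v, v ∉ W → g v = 0) : D G f g = 2 * ∑ v ∈ W, g v * lap G f v := by
  have hs : Summable (aa G f g) := summable_of_hasFiniteSupport (aa_supp hG f g W hg)
  unfold D
  simp_rw [cc_eq]
  have hs' : Summable (fun p : V × V => aa G f g p.swap) :=
    (Equiv.prodComm V V).summable_iff.2 hs
  rw [hs.tsum_add hs']
  have : ∑' p : V × V, aa G f g p.swap = ∑' p, aa G f g p := (Equiv.prodComm V V).tsum_eq _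
  rw [this, aa_tsum hG f g W hg]
  ring

lemma ee_fin {G : SimpleGraph V} (hG : LF G) (g : V → ℝ) (W : Finset V)
    (hg : ∀ v, v ∉ W → g v = 0) : Summable (ee G g) := by
  have h1 : ∀ p, ee G g p = aa G g g p + aa G g g p.swap := by
    intro p
    rw [← cc_eq]
    unfold ee cc
    split_ifs
    · ring
    · rfl
  have hs : Summable (aa G g g) := summable_of_hasFiniteSupport (aa_supp hG g g W hg)
  have hs' : Summable (fun p : V × V => aa G g g p.swap) :=
    (Equiv.prodComm V V).summable_iff.2 hs
  exact (hs.add hs').congr fun p => (h1 p).symm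

lemma D_self (G : SimpleGraph V) (g : V → ℝ) : D G g g = E G g := by
  unfold D E
  refine tsum_congr fun p => ?_
  unfold ee cc
  split_ifs
  · ring
  · rfl

lemma lap_add {G : SimpleGraph V} (hG : LF G) (f g : V → ℝ) (c : ℝ) (v : V) :
    lap G (fun v => f v + c * g v) v = lap G f v + c * lap G g v := by
  unfold lap
  rw [finsum_mem_eq_finite_toFinset_sum _ (hG v), finsum_mem_eq_finite_toFinset_sum _ (hG v),
    finsum_mem_eq_finite_toFinset_sum _ (hG v), Finset.mul_sum, ← Finset.sum_add_distrib]
  exact Finset.sum_congr rfl fun z _ => by ring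

lemma En_mono_of {G : SimpleGraph V} {f g : V → ℝ} (hf : Summable (ee G f))
    (hg : Summable (ee G g)) (h : ∀ p, ee G f p ≤ ee G g p) : E G f ≤ E G g :=
  hf.tsum_le_tsum h hg

lemma D_add_left {G : SimpleGraph V} {f g k : V → ℝ} (c : ℝ) (hf : Summable (ee G f))
    (hg : Summable (ee G g)) (hk : Summable (ee G k)) :
    D G (fun v => f v + c * g v) k = D G f k + c * D G g k := by
  unfold D
  rw [← tsum_mul_left, ← (cc_summable hf hk).tsum_add ((cc_summable hg hk).mul_left c)]
  refine tsum_congr fun p => ?_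
  unfold cc
  split_ifs
  · ring
  · ring

lemma lap_le_deg {G : SimpleGraph V} (hG : LF G) (e : V → ℝ) (x : V) (hx : e x = 1)
    (he : ∀ v, 0 ≤ e v) : lap G e x ≤ deg G x := by
  unfold lap deg
  rw [finsum_mem_eq_finite_toFinset_sum _ (hG x), Set.ncard_eq_toFinset_card _ (hG x)]
  calc _ ≤ ∑ z ∈ (hG x).toFinset, (1 : ℝ) := Finset.sum_le_sum fun z _ => by
        rw [hx]; linarith [he z]
    _ = _ := by simp

lemma lap_nonpos {G : SimpleGraph V} (hG : LF G) (f : V → ℝ) (x : V) (hx : f x = 0)
    (hf : ∀ v, 0 ≤ f v) : lap G f x ≤ 0 := by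
  unfold lap
  rw [finsum_mem_eq_finite_toFinset_sum _ (hG x)]
  exact Finset.sum_nonpos fun z _ => by rw [hx]; linarith [hf z]

lemma D_zero_of {G : SimpleGraph V} (f e : V → ℝ) (he : Summable (ee G e)) (h : E G e = 0) :
    D G f e = 0 := by
  have h1 : ∀ p, ee G e p = 0 := by
    have := (hasSum_zero_iff_of_nonneg (ee_nonneg G e)).1 (by
      have h2 := he.hasSum
      rw [show ∑' p, ee G e p = 0 from h] at h2
      exact h2)
    intro p
    exact congrFun this p
  unfold D
  have h3 : ∀ p, cc G f e p = 0 := by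
    intro p
    have := h1 p
    unfold ee at this
    unfold cc
    split_ifs with h
    · rw [if_pos h] at this
      rw [pow_eq_zero_iff two_ne_zero] at this
      rw [this, mul_zero]
    · rfl
  simp [h3]

lemma ee_sum_of_eq {G : SimpleGraph V} (hG : LF G) {f g : V → ℝ} (W : Finset V)
    (hf : Summable (ee G f)) (h : ∀ v, v ∉ W → g v = f v) : Summable (ee G g) := by
  have h1 : Summable (ee G (fun v => g v - f v)) := ee_fin hG _ W fun v hv => by
    rw [h v hv, sub_self]
  have := summable_add 1 hf h1
  refine this.congr fun p => ?_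
  congr 1
  funext v
  ring

/-- the projection property -/
lemma E_ge {G : SimpleGraph V} (hG : LF G) {u w : V → ℝ} (W : Finset V) (x : V)
    (hu : Summable (ee G u)) (hw : ∀ v, v ∉ W → w v = u v) (hx : w x = u x)
    (hl : ∀ v ∈ W, v ≠ x → lap G u v = 0) : Summable (ee G w) ∧ E G u ≤ E G w := by
  have hφ : ∀ v, v ∉ W → (fun v => w v - u v) v = 0 := fun v hv => by simp [hw v hv]
  have hs := ee_fin hG _ W hφ
  have h1 : w = fun v => u v + 1 * (fun v => w v - u v) v := by
    funext v
    simp
  have h2 : D G u (fun v => w v - u v) = 0 := by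
    rw [D_eq hG u _ W hφ, Finset.sum_eq_zero, mul_zero]
    intro v hv
    by_cases hvx : v = x
    · rw [hvx, hx]
      simp
    · rw [hl v hv hvx, mul_zero]
  constructor
  · rw [h1]
    exact summable_add 1 hu hs
  · rw [h1, E_add 1 hu hs, h2]
    have := E_nonneg G (fun v => w v - u v)
    simp only [mul_one, mul_zero, add_zero, one_pow, one_mul]
    linarith

theorem key (hmin : S_MIN) : S_KEY := by
  classical
  intro V G hG W x hxW F H f h hF hH hFH hFe hHe hfF hfx hfl hhH hhx hhl hf0 hh0 w hw
  -- the function `e`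
  obtain ⟨e, he0, he1, heW, hel⟩ := hmin G hG (W.erase x) (fun v => if v = x then 1 else 0) 1
    (fun v => by split_ifs <;> norm_num) (fun v => by split_ifs <;> norm_num)
  have hex : e x = 1 := by
    rw [heW x (by simp)]
    simp
  have heW' : ∀ v, v ∉ W → e v = 0 := by
    intro v hv
    rw [heW v (fun h' => hv (Finset.mem_of_mem_erase h'))]
    rw [if_neg]
    rintro rfl
    exact hv hxW
  have sF := summable_of_En hFe
  have sH := summable_of_En hHe
  have sf : Summable (ee G f) := ee_sum_of_eq hG W sF hfF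
  have sh : Summable (ee G h) := ee_sum_of_eq hG W sH hhH
  have se : Summable (ee G e) := ee_fin hG e W heW'
  -- the sum and the difference
  have sp : Summable (ee G (fun v => f v + 1 * h v)) := summable_add 1 sf sh
  have sm : Summable (ee G (fun v => f v + (-1) * h v)) := summable_add (-1) sf sh
  have sumDe : ∀ u : V → ℝ, (∀ v ∈ W, v ≠ x → lap G u v = 0) → D G u e = 2 * lap G u x := by
    intro u hu
    rw [D_eq hG u e W heW', Finset.sum_eq_single x]
    · rw [hex, one_mul]
    · intro v hv hvx
      rw [hu v hv hvx, mul_zero]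
    · intro hx
      exact absurd hxW hx
  have hfe := sumDe f hfl
  have hhe := sumDe h hhl
  have hee : E G e = 2 * lap G e x := by
    rw [← D_self]
    exact sumDe e fun v hv hvx => hel v (Finset.mem_erase.2 ⟨hvx, hv⟩)
  set a := -lap G f x with ha
  set b := -lap G h x with hb
  set ε := lap G e x with hε
  have ha0 : 0 ≤ a := by
    have := lap_nonpos hG f x hfx hf0
    linarith
  have hb0 : 0 ≤ b := by
    have := lap_nonpos hG h x hhx hh0
    linarith
  have hε0 : 0 ≤ ε := by
    have := E_nonneg G e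
    linarith
  have hεd : ε ≤ deg G x := lap_le_deg hG e x hex he0
  -- (iii)
  have h3 : E G (fun v => f v + 1 * h v) ≤ E G (fun v => f v + (-1) * h v) := by
    have hmeq : ∀ v, v ∉ W → |f v + (-1) * h v| = f v + 1 * h v := by
      intro v hv
      rw [hfF v hv, hhH v hv]
      rcases mul_eq_zero.1 (hFH v) with h0 | h0
      · rw [h0]
        simp [abs_of_nonneg (hH v)]
      · rw [h0]
        simp [abs_of_nonneg (hF v)]
    obtain ⟨sabs, hle⟩ := E_ge hG (u := fun v => f v + 1 * h v) (w := fun v => |f v + (-1) * h v|) W x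
      sp hmeq (by simp [hfx, hhx]) (fun v hv hvx => by
        rw [lap_add hG, hfl v hv hvx, hhl v hv hvx]
        ring)
    refine hle.trans (En_mono_of sabs sm fun p => ?_)
    unfold ee
    split_ifs
    · exact sq_le_sq.2 (abs_abs_sub_abs_le _ _)
    · exact le_rfl
  -- (iv)
  have h4 : ∀ β : ℝ, Qn G (F + H) ≤ ENNReal.ofReal
      (E G (fun v => f v + 1 * h v) - 4 * β * (a + b) + 2 * β ^ 2 * ε) := by
    intro β
    have hval : E G (fun v => (fun v => f v + 1 * h v) v + β * e v) =
        E G (fun v => f v + 1 * h v) - 4 * β * (a + b) + 2 * β ^ 2 * ε := by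
      rw [E_add β sp se, hee, D_add_left 1 sf sh se, hfe, hhe]
      rw [ha, hb]
      ring
    rw [← hval, ← En_eq (summable_add β sp se)]
    let φ : V →₀ ℝ := Finsupp.onFinset W (fun v => (f v + 1 * h v + β * e v) - (F v + H v)) (by
      intro v hv
      by_contra hn
      apply hv
      rw [hfF v hn, hhH v hn, heW' v hn]
      ring)
    have hφ : (fun v => (fun v => f v + 1 * h v) v + β * e v) = (F + H) + φ := by
      funext v
      simp [φ]
    rw [hφ]
    exact iInf_le _ φ
  -- (v)
  have h5 : Summable (ee G w) ∧ E G (fun v => f v + (-1) * h v) - 4 * w x * (a - b)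
      + 2 * (w x) ^ 2 * ε ≤ E G w := by
    obtain ⟨s1, h1⟩ := E_ge hG (u := fun v => (fun v => f v + (-1) * h v) v + w x * e v) (w := w) W x
      (summable_add _ sm se) (fun v hv => by
        simp only [hw v hv, hfF v hv, hhH v hv, heW' v hv]
        ring) (by simp [hfx, hhx, hex]) (fun v hv hvx => by
          rw [lap_add hG, lap_add hG, hfl v hv hvx, hhl v hv hvx,
            hel v (Finset.mem_erase.2 ⟨hvx, hv⟩)]
          ring)
    refine ⟨s1, le_trans (le_of_eq ?_) h1⟩
    rw [E_add _ sm se, hee, D_add_left (-1) sf sh se, hfe, hhe, ha, hb]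
    ring
  obtain ⟨sw, h5⟩ := h5
  have hab : lap G f x * lap G h x = a * b := by rw [ha, hb]; ring
  rw [hab, En_eq sw]
  have hq0 : 0 ≤ 8 * (a * b) / deg G x := by
    apply div_nonneg (by positivity)
    exact le_trans hε0 hεd
  rcases hε0.eq_or_lt with h0 | hpos
  · -- ε = 0
    have hEe : E G e = 0 := by rw [hee, ← h0, mul_zero]
    have ha' : a = 0 := by
      have := D_zero_of f e se hEe
      rw [hfe] at this
      linarith
    have := h4 0
    rw [ha']
    simp only [zero_mul, mul_zero, zero_div, ENNReal.ofReal_zero, add_zero]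
    refine this.trans (ENNReal.ofReal_le_ofReal ?_)
    have hb' : b = 0 := by
      have := D_zero_of h e se hEe
      rw [hhe] at this
      linarith
    rw [ha', hb', ← h0] at h5
    simp only [mul_zero, zero_mul, add_zero, sub_zero, sub_self, ne_eq, OfNat.ofNat_ne_zero, not_false_eq_true, zero_pow] at h5 ⊢
    linarith
  · -- ε > 0
    have hd : 0 < deg G x := lt_of_lt_of_le hpos hεd
    refine (add_le_add_left (h4 ((a + b) / ε)) _).trans ?_
    have hv : E G (fun v => f v + 1 * h v) - 4 * ((a + b) / ε) * (a + b) +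
        2 * ((a + b) / ε) ^ 2 * ε = E G (fun v => f v + 1 * h v) - 2 * (a + b) ^ 2 / ε := by
      field_simp
      ring
    rw [hv]
    have hv2 : E G (fun v => f v + (-1) * h v) - 2 * (a - b) ^ 2 / ε ≤ E G w := by
      refine le_trans ?_ h5
      have : 0 ≤ 2 * ε * (w x - (a - b) / ε) ^ 2 := by positivity
      have h6 : 2 * ε * (w x - (a - b) / ε) ^ 2 =
          2 * (w x) ^ 2 * ε - 4 * w x * (a - b) + 2 * (a - b) ^ 2 / ε := by
        field_simp
        ring
      linarith
    have h7 : 8 * (a * b) / deg G x ≤ 8 * (a * b) / ε :=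
      div_le_div_of_nonneg_left (by positivity) hpos hεd
    have h8 : 8 * (a * b) / ε = 2 * (a + b) ^ 2 / ε - 2 * (a - b) ^ 2 / ε := by
      field_simp
      ring
    have hfin : E G (fun v => f v + 1 * h v) - 2 * (a + b) ^ 2 / ε + 8 * (a * b) / deg G x ≤
        E G w := by linarith
    by_cases hneg : 0 ≤ E G (fun v => f v + 1 * h v) - 2 * (a + b) ^ 2 / ε
    · rw [← ENNReal.ofReal_add hneg hq0]
      exact ENNReal.ofReal_le_ofReal hfin
    · -- the value is an energy, so it is nonnegative
      exfalso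
      apply hneg
      have hval : E G (fun v => (fun v => f v + 1 * h v) v + ((a + b) / ε) * e v) =
          E G (fun v => f v + 1 * h v) - 4 * ((a + b) / ε) * (a + b) +
          2 * ((a + b) / ε) ^ 2 * ε := by
        rw [E_add _ sp se, hee, D_add_left 1 sf sh se, hfe, hhe]
        rw [ha, hb]
        ring
      rw [← hv, ← hval]
      exact E_nonneg _ _

end

end Pool.Agent.Y202.HM
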