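import Pool.Agent.Y979.HM.Stm

/-!
# Project HM: independence and uniqueness of the law of the Poisson process
(jobs HM-IND and HM-LAW)
-/

set_option autoImplicit false

open MeasureTheory ProbabilityTheory UpperHalfPlane Pool.Agent.Y979.HV Pool.Agent.Y979.HM
open scoped ENNReal

namespace Pool.Agent.Y202.HM

universe u

noncomputable section

/-- the atoms of a finite family of sets -/
def atom (K : Set ℍ) (T S : Finset (Set ℍ)) : Set ℍ :=
  {z | z ∈ K ∧ S ⊆ T ∧ ∀ B ∈ T, (z ∈ B ↔ B ∈ S)}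

lemma atom_sub (K : Set ℍ) (T S : Finset (Set ℍ)) : atom K T S ⊆ K := fun _ h => h.1

lemma atom_disj (K : Set ℍ) (T S S' : Finset (Set ℍ)) (h : S ≠ S') :
    Disjoint (atom K T S) (atom K T S') := by
  rw [Set.disjoint_left]
  rintro z ⟨-, h1, h2⟩ ⟨-, h3, h4⟩
  apply h
  ext B
  constructor
  · intro hB
    exact (h4 B (h1 hB)).1 ((h2 B (h1 hB)).2 hB)
  · intro hB
    exact (h2 B (h3 hB)).1 ((h4 B (h3 hB)).2 hB)

lemma atom_meas {K : Set ℍ} (hK : MeasurableSet K) {T : Finset (Set ℍ)}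
    (hT : ∀ B ∈ T, MeasurableSet B) (S : Finset (Set ℍ)) : MeasurableSet (atom K T S) := by
  classical
  have : atom K T S = K ∩ ({z | S ⊆ T} ∩ ⋂ B ∈ T, {z | z ∈ B ↔ B ∈ S}) := by
    ext z
    simp only [atom, Set.mem_ofPred_eq, Set.mem_inter_iff, Set.mem_iInter]
  rw [this]
  refine hK.inter ((MeasurableSet.const _).inter ?_)
  refine Finset.measurableSet_biInter T fun B hB => ?_
  by_cases h : B ∈ S
  · have : {z : ℍ | z ∈ B ↔ B ∈ S} = B := by
      ext z
      simp [h]
    rw [this]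
    exact hT B hB
  · have : {z : ℍ | z ∈ B ↔ B ∈ S} = Bᶜ := by
      ext z
      simp [h]
    rw [this]
    exact (hT B hB).compl

lemma count_eq (A K : Set ℍ) (T : Finset (Set ℍ)) {B : Set ℍ} (hB : B ∈ T) (hBK : B ⊆ K) :
    (A ∩ B).encard = ∑ S : {S : T.powerset // B ∈ S.1}, (A ∩ atom K T S.1.1).encard := by
  classical
  rw [← finsum_eq_sum_of_fintype, ← Set.encard_iUnion_of_finite]
  · congr 1
    ext z
    simp only [Set.mem_inter_iff, Set.mem_iUnion]
    constructor
    · rintro ⟨h1, h2⟩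
      refine ⟨⟨⟨T.filter (fun B => z ∈ B), Finset.mem_powerset.2 (Finset.filter_subset _ _)⟩,
        Finset.mem_filter.2 ⟨hB, h2⟩⟩, h1, hBK h2, Finset.filter_subset _ _, fun B' hB' => ?_⟩
      simp [hB']
    · rintro ⟨⟨S, hS⟩, h1, h2, h3, h4⟩
      exact ⟨h1, (h4 B hB).2 hS⟩
  · intro S S' hSS
    refine (atom_disj K T S.1.1 S'.1.1 fun h => hSS ?_).mono Set.inter_subset_right
      Set.inter_subset_right
    exact Subtype.ext (Subtype.ext h)

/-- the vector of the counts of the atoms -/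
def vec (K : Set ℍ) (T : Finset (Set ℍ)) (A : Set ℍ) : T.powerset → ℕ∞ :=
  fun S => (A ∩ atom K T S.1).encard

lemma event_repr (K : Set ℍ) (T : Finset (Set ℍ)) (hT : ∀ B ∈ T, B ⊆ K) (s : Set ℍ → Set ℕ∞) :
    ∃ W : Set (T.powerset → ℕ∞), MeasurableSet W ∧
      ∀ A : Set ℍ, (∀ B ∈ T, (A ∩ B).encard ∈ s B) ↔ vec K T A ∈ W := by
  classical
  refine ⟨{v | ∀ B ∈ T, ∑ S : {S : T.powerset // B ∈ S.1}, v S.1 ∈ s B},
    (Set.to_countable _).measurableSet, fun A => ?_⟩
  simp only [Set.mem_ofPred_eq]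
  refine forall₂_congr fun B hB => ?_
  rw [count_eq A K T hB (hT B hB)]
  rfl

/-- independence of the counts for an arbitrary index type -/
theorem iIndep_counts {Ω : Type u} [MeasurableSpace Ω] {P : Measure Ω} {lam : ℝ} {Q : Ω → Set ℍ}
    (hQ : IsPoissonProcess P lam Q) {ι : Type} {B : ι → Set ℍ}
    (hB : ∀ i, MeasurableSet (B i)) (hd : Pairwise (fun i j => Disjoint (B i) (B j))) :
    iIndepFun (fun i ω => (Q ω ∩ B i).encard) P := by
  classical
  rw [iIndepFun_iff_measure_inter_preimage_eq_mul]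
  intro S s hs
  let e : Fin S.card ≃ S := S.equivFin.symm
  have h1 := hQ.indep_count S.card (fun k => B (e k)) (fun k => hB _) (fun k l hkl => by
    apply hd
    intro h
    exact hkl (e.injective (Subtype.ext h)))
  rw [iIndepFun_iff_measure_inter_preimage_eq_mul] at h1
  have h2 := h1 Finset.univ (sets := fun k => s (e k)) (fun k _ => hs _ (e k).2)
  have e1 : (⋂ i ∈ S, (fun ω => (Q ω ∩ B i).encard) ⁻¹' s i) =
      ⋂ k ∈ (Finset.univ : Finset (Fin S.card)),
        (fun ω => (Q ω ∩ B (e k)).encard) ⁻¹' s (e k) := by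
    ext ω
    simp only [Set.mem_iInter, Finset.mem_univ, true_imp_iff]
    constructor
    · intro h k
      exact h _ (e k).2
    · intro h i hi
      have := h (e.symm ⟨i, hi⟩)
      rw [Equiv.apply_symm_apply] at this
      exact this
  rw [e1, h2, Finset.prod_equiv e (t := Finset.univ)
    (g := fun i : S => P ((fun ω => (Q ω ∩ B i).encard) ⁻¹' s i)) (by simp) (fun _ _ => rfl)]
  exact Finset.prod_coe_sort S (fun i => P ((fun ω => (Q ω ∩ B i).encard) ⁻¹' s i))

/-- the index type of a sigma-algebra generated by counts -/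
abbrev Ixp (p : Set ℍ → Prop) : Type := {B : Set ℍ // p B}

/-- the index type of the sigma-algebra `cs Z` -/
abbrev Ix (Z : Set ℍ) : Type := Ixp (fun B => MeasurableSet B ∧ B ⊆ Z)

/-- the sigma-algebra of one count -/
@[instance_reducible]
def mm {Ω : Type u} (Q : Ω → Set ℍ) (B : Set ℍ) : MeasurableSpace Ω :=
  MeasurableSpace.comap (fun ω => (Q ω ∩ B).encard) inferInstance

lemma comap_cs {Ω : Type u} (Q : Ω → Set ℍ) (Z : Set ℍ) :
    (cs Z).comap (fun ω => mk (Q ω)) = ⨆ i : Ix Z, mm Q i.1 := by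
  unfold cs
  rw [MeasurableSpace.comap_iSup]
  simp_rw [MeasurableSpace.comap_iSup, MeasurableSpace.comap_comp]
  rw [iSup_subtype']
  rfl

lemma sup_gen {Ω : Type u} (Q : Ω → Set ℍ) (p : Set ℍ → Prop) :
    ⨆ i : Ixp p, mm Q i.1 = MeasurableSpace.generateFrom
      (piiUnionInter (fun n : Ixp p => {s | MeasurableSet[mm Q n.1] s}) Set.univ) := by
  rw [generateFrom_piiUnionInter_measurableSet]
  simp

lemma comap_gen {Ω : Type u} (Q : Ω → Set ℍ) (Z : Set ℍ) :
    (cs Z).comap (fun ω => mk (Q ω)) = MeasurableSpace.generateFrom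
      (piiUnionInter (fun n : Ix Z => {s | MeasurableSet[mm Q n.1] s}) Set.univ) := by
  rw [comap_cs, sup_gen]

lemma pi_repr {Ω : Type u} (Q : Ω → Set ℍ) (p : Set ℍ → Prop) {E : Set Ω}
    (hE : E ∈ piiUnionInter (fun n : Ixp p => {s | MeasurableSet[mm Q n.1] s}) Set.univ) :
    ∃ (T : Finset (Set ℍ)) (s : Set ℍ → Set ℕ∞), (∀ B ∈ T, p B) ∧
      E = {ω | ∀ B ∈ T, (Q ω ∩ B).encard ∈ s B} := by
  classical
  obtain ⟨t, -, f, hf, rfl⟩ := hE
  have : ∀ x : Ixp p, ∃ S : Set ℕ∞, x ∈ t → f x = (fun ω => (Q ω ∩ x.1).encard) ⁻¹' S := by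
    intro x
    by_cases hx : x ∈ t
    · obtain ⟨S, -, hS⟩ := hf x hx
      exact ⟨S, fun _ => hS.symm⟩
    · exact ⟨∅, fun h => absurd h hx⟩
  choose S hS using this
  refine ⟨t.image Subtype.val, fun B => if h : p B then S ⟨B, h⟩ else ∅, ?_, ?_⟩
  · intro B hB
    obtain ⟨x, -, rfl⟩ := Finset.mem_image.1 hB
    exact x.2
  · ext ω
    simp only [Set.mem_iInter, Set.mem_ofPred_eq, Finset.mem_image]
    constructor
    · rintro h B ⟨x, hx, rfl⟩
      rw [dif_pos x.2]
      have := h x hx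
      rw [hS x hx] at this
      exact this
    · intro h x hx
      have := h x.1 ⟨x, hx, rfl⟩
      rw [dif_pos x.2] at this
      rw [hS x hx]
      exact this

lemma isPi {Ω : Type u} (Q : Ω → Set ℍ) (p : Set ℍ → Prop) :
    IsPiSystem (piiUnionInter (fun n : Ixp p => {s | MeasurableSet[mm Q n.1] s}) Set.univ) :=
  isPiSystem_piiUnionInter _
    (fun x : Ixp p => @MeasurableSpace.isPiSystem_measurableSet _ (mm Q x.1)) _

lemma le_space {Ω : Type u} [mΩ : MeasurableSpace Ω] {P : Measure Ω} {lam : ℝ} {Q : Ω → Set ℍ}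
    (hQ : IsPoissonProcess P lam Q) (Z : Set ℍ) : (cs Z).comap (fun ω => mk (Q ω)) ≤ mΩ := by
  rw [comap_cs]
  refine iSup_le fun i => ?_
  exact (hQ.measurable_count i.1 i.2.1).comap_le

theorem ind : S_IND.{u} := by
  classical
  intro Ω _ P _ lam Q hQ Z Z' hZ hZ' hd
  refine IndepSets.indep (le_space hQ Z) (le_space hQ Z') (isPi Q _) (isPi Q _)
    (comap_gen Q Z) (comap_gen Q Z') ?_
  rw [IndepSets_iff]
  intro E E' hE hE'
  obtain ⟨T, s, hT, rfl⟩ := pi_repr Q _ hE
  obtain ⟨T', s', hT', rfl⟩ := pi_repr Q _ hE'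
  obtain ⟨W, hW, hWe⟩ := event_repr Z T (fun B hB => (hT B hB).2) s
  obtain ⟨W', hW', hWe'⟩ := event_repr Z' T' (fun B hB => (hT' B hB).2) s'
  -- the joint family
  let BB : Finset (Set ℍ) ⊕ Finset (Set ℍ) → Set ℍ := Sum.elim (atom Z T) (atom Z' T')
  have hBB : ∀ i, MeasurableSet (BB i) := by
    rintro (S | S)
    · exact atom_meas hZ (fun B hB => (hT B hB).1) S
    · exact atom_meas hZ' (fun B hB => (hT' B hB).1) S
  have hBd : Pairwise (fun i j => Disjoint (BB i) (BB j)) := by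
    rintro (S | S) (S' | S') hne
    · exact atom_disj Z T S S' fun h => hne (by rw [h])
    · exact hd.mono (atom_sub _ _ _) (atom_sub _ _ _)
    · exact hd.symm.mono (atom_sub _ _ _) (atom_sub _ _ _)
    · exact atom_disj Z' T' S S' fun h => hne (by rw [h])
  have hi := iIndep_counts hQ hBB hBd
  have hmeas : ∀ i, Measurable (fun ω => (Q ω ∩ BB i).encard) := fun i =>
    hQ.measurable_count _ (hBB i)
  let U : Finset (Finset (Set ℍ) ⊕ Finset (Set ℍ)) := T.powerset.map Function.Embedding.inl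
  let U' : Finset (Finset (Set ℍ) ⊕ Finset (Set ℍ)) := T'.powerset.map Function.Embedding.inr
  have hUU : Disjoint U U' := by
    rw [Finset.disjoint_left]
    intro x hx hx'
    obtain ⟨a, -, rfl⟩ := Finset.mem_map.1 hx
    obtain ⟨b, -, hb⟩ := Finset.mem_map.1 hx'
    simp at hb
  have h1 := iIndepFun.indepFun_finset U U' hUU hi hmeas
  have hr : Measurable (fun (v : U → ℕ∞) (S : T.powerset) =>
      v ⟨Sum.inl S.1, Finset.mem_map.2 ⟨S.1, S.2, rfl⟩⟩) :=
    measurable_pi_lambda _ fun S => measurable_pi_apply _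
  have hr' : Measurable (fun (v : U' → ℕ∞) (S : T'.powerset) =>
      v ⟨Sum.inr S.1, Finset.mem_map.2 ⟨S.1, S.2, rfl⟩⟩) :=
    measurable_pi_lambda _ fun S => measurable_pi_apply _
  have h2 : IndepFun (fun ω => vec Z T (Q ω)) (fun ω => vec Z' T' (Q ω)) P := h1.comp hr hr'
  have e1 : {ω | ∀ B ∈ T, (Q ω ∩ B).encard ∈ s B} = (fun ω => vec Z T (Q ω)) ⁻¹' W := by
    ext ω
    exact hWe (Q ω)
  have e2 : {ω | ∀ B ∈ T', (Q ω ∩ B).encard ∈ s' B} = (fun ω => vec Z' T' (Q ω)) ⁻¹' W' := by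
    ext ω
    exact hWe' (Q ω)
  rw [e1, e2]
  exact h2.measure_inter_preimage_eq_mul _ _ hW hW'

/-- the law of one count is determined -/
lemma one_law {Ω : Type u} [MeasurableSpace Ω] (P : Measure Ω) [IsProbabilityMeasure P]
    {lam : ℝ} {Q Q' : Ω → Set ℍ} (hQ : IsPoissonProcess P lam Q) (hQ' : IsPoissonProcess P lam Q')
    {B : Set ℍ} (hB : MeasurableSet B) (hv : volume B ≠ ⊤) :
    P.map (fun ω => (Q ω ∩ B).encard) = P.map (fun ω => (Q' ω ∩ B).encard) := by
  have hm := hQ.measurable_count B hB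
  have hm' := hQ'.measurable_count B hB
  have i1 : IsProbabilityMeasure (P.map (fun ω => (Q ω ∩ B).encard)) :=
    Measure.isProbabilityMeasure_map hm.aemeasurable
  have i2 : IsProbabilityMeasure (P.map (fun ω => (Q' ω ∩ B).encard)) :=
    Measure.isProbabilityMeasure_map hm'.aemeasurable
  have hk : ∀ k : ℕ, P.map (fun ω => (Q ω ∩ B).encard) {(k : ℕ∞)} =
      P.map (fun ω => (Q' ω ∩ B).encard) {(k : ℕ∞)} := by
    intro k
    rw [Measure.map_apply hm (measurableSet_singleton _),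
      Measure.map_apply hm' (measurableSet_singleton _)]
    exact (hQ.law_count B hB hv k).trans (hQ'.law_count B hB hv k).symm
  have hun : ({(⊤ : ℕ∞)} : Set ℕ∞)ᶜ = ⋃ k : ℕ, {(k : ℕ∞)} := by
    ext x
    simp only [Set.mem_compl_iff, Set.mem_singleton_iff, Set.mem_iUnion]
    constructor
    · intro h
      exact ⟨x.toNat, (ENat.natCast_toNat h).symm⟩
    · rintro ⟨k, rfl⟩
      exact ENat.natCast_ne_top k
  have hdis : Pairwise (Function.onFun Disjoint fun k : ℕ => ({(k : ℕ∞)} : Set ℕ∞)) := by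
    intro a b hab
    rw [Function.onFun, Set.disjoint_singleton]
    exact_mod_cast hab
  have hc : P.map (fun ω => (Q ω ∩ B).encard) ({(⊤ : ℕ∞)} : Set ℕ∞)ᶜ =
      P.map (fun ω => (Q' ω ∩ B).encard) ({(⊤ : ℕ∞)} : Set ℕ∞)ᶜ := by
    rw [hun, measure_iUnion hdis fun k => measurableSet_singleton _,
      measure_iUnion hdis fun k => measurableSet_singleton _]
    exact tsum_congr hk
  refine Measure.ext_of_singleton fun a => ?_
  rcases eq_or_ne a ⊤ with rfl | ha
  · have e : ∀ μ : Measure ℕ∞, [IsProbabilityMeasure μ] → μ {(⊤ : ℕ∞)} = 1 - μ ({(⊤ : ℕ∞)} : Set ℕ∞)ᶜ := by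
      intro μ _
      rw [← prob_compl_eq_one_sub (measurableSet_singleton _).compl, compl_compl]
    rw [e, e, hc]
  · rw [← ENat.natCast_toNat ha]
    exact hk _

lemma le_encard_iUnion {α : Type*} {S : ℕ → Set α} (hS : Monotone S) (k : ℕ) :
    (k : ℕ∞) ≤ (⋃ n, S n).encard ↔ ∃ n, (k : ℕ∞) ≤ (S n).encard := by
  classical
  constructor
  · intro h
    obtain ⟨t, ht, hk⟩ := Set.exists_subset_encard_eq h
    have hf : t.Finite := Set.finite_of_encard_eq_coe hk
    have : ∀ z ∈ t, ∃ n, z ∈ S n := fun z hz => Set.mem_iUnion.1 (ht hz)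
    choose! N hN using this
    refine ⟨hf.toFinset.sup N, ?_⟩
    rw [← hk]
    apply Set.encard_le_encard
    intro z hz
    exact hS (Finset.le_sup (hf.mem_toFinset.2 hz)) (hN z hz)
  · rintro ⟨n, h⟩
    exact h.trans (Set.encard_le_encard (Set.subset_iUnion S n))

lemma measurable_of_le {X : Type u} [MeasurableSpace X] (f : X → ℕ∞)
    (h : ∀ k : ℕ, MeasurableSet {x | (k : ℕ∞) ≤ f x}) : Measurable f := by
  refine measurable_to_countable' fun a => ?_
  rcases eq_or_ne a ⊤ with rfl | ha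
  · have : f ⁻¹' {⊤} = ⋂ k : ℕ, {x | (k : ℕ∞) ≤ f x} := by
      ext x
      simp only [Set.mem_preimage, Set.mem_singleton_iff, Set.mem_iInter, Set.mem_ofPred_eq]
      constructor
      · intro h k
        rw [h]
        exact le_top
      · intro h
        exact ENat.eq_top_iff_forall_ge.2 h
    rw [this]
    exact MeasurableSet.iInter h
  · obtain ⟨k, rfl⟩ := ENat.ne_top_iff_exists.1 ha
    have : f ⁻¹' {(k : ℕ∞)} = {x | (k : ℕ∞) ≤ f x} \ {x | ((k + 1 : ℕ) : ℕ∞) ≤ f x} := by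
      ext x
      simp only [Set.mem_preimage, Set.mem_singleton_iff, Set.mem_sdiff, Set.mem_ofPred_eq, not_le]
      constructor
      · intro h
        rw [h]
        refine ⟨le_rfl, ?_⟩
        exact_mod_cast Nat.lt_succ_self k
      · rintro ⟨h1, h2⟩
        refine le_antisymm ?_ h1
        have h3 : ((k + 1 : ℕ) : ℕ∞) = (k : ℕ∞) + 1 := by push_cast; rfl
        rw [h3] at h2
        exact Order.le_of_lt_add_one h2
    rw [this]
    exact (h k).diff (h (k + 1))

/-- the property of having finite area -/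
def fin (B : Set ℍ) : Prop := MeasurableSet B ∧ volume B ≠ ⊤

lemma cs_univ_eq : cs Set.univ = ⨆ i : Ixp fin, mm pts i.1 := by
  apply le_antisymm
  · unfold cs
    refine iSup₂_le fun B hB => ?_
    rw [← measurable_iff_comap_le]
    let m0 : MeasurableSpace Conf := ⨆ i : Ixp fin, mm pts i.1
    refine @measurable_of_le Conf m0 _ fun k => ?_
    let K : ℕ → Set ℍ := fun n => Metric.closedBall I n
    have hK : ∀ n, fin (B ∩ K n) := fun n => ⟨hB.1.inter Metric.isClosed_closedBall.measurableSet,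
      ((measure_mono Set.inter_subset_right).trans_lt
        (isCompact_closedBall _ _).measure_lt_top).ne⟩
    have e1 : {A : Conf | (k : ℕ∞) ≤ (pts A ∩ B).encard} =
        ⋃ n, {A : Conf | (k : ℕ∞) ≤ (pts A ∩ (B ∩ K n)).encard} := by
      ext A
      simp only [Set.mem_ofPred_eq, Set.mem_iUnion]
      rw [← le_encard_iUnion (S := fun n => pts A ∩ (B ∩ K n))]
      · rw [← Set.inter_iUnion, ← Set.inter_iUnion, Metric.iUnion_closedBall_nat, Set.inter_univ]
      · intro m n hmn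
        refine Set.inter_subset_inter_right _ (Set.inter_subset_inter_right _ ?_)
        exact Metric.closedBall_subset_closedBall (by exact_mod_cast hmn)
    rw [e1]
    refine MeasurableSet.iUnion fun n => ?_
    have h1 : mm pts (B ∩ K n) ≤ m0 := le_iSup (fun i : Ixp fin => mm pts i.1) ⟨B ∩ K n, hK n⟩
    refine h1 _ ⟨{x | (k : ℕ∞) ≤ x}, (Set.to_countable _).measurableSet, rfl⟩
  · refine iSup_le fun i => ?_
    exact le_iSup₂_of_le i.1 ⟨i.2.1, Set.subset_univ _⟩ le_rfl

lemma vec_law {Ω : Type u} [MeasurableSpace Ω] (P : Measure Ω) [IsProbabilityMeasure P]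
    {lam : ℝ} {Q : Ω → Set ℍ} (hQ : IsPoissonProcess P lam Q) (K : Set ℍ) (T : Finset (Set ℍ))
    (hK : MeasurableSet K) (hT : ∀ B ∈ T, MeasurableSet B) :
    Measurable (fun ω => vec K T (Q ω)) ∧ P.map (fun ω => vec K T (Q ω)) =
      Measure.pi (fun S : T.powerset => P.map (fun ω => (Q ω ∩ atom K T S.1).encard)) := by
  have hm : ∀ S : T.powerset, Measurable (fun ω => (Q ω ∩ atom K T S.1).encard) := fun S =>
    hQ.measurable_count _ (atom_meas hK hT _)
  refine ⟨measurable_pi_lambda _ hm, ?_⟩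
  have h1 := iIndep_counts hQ (B := fun S : T.powerset => atom K T S.1)
    (fun S => atom_meas hK hT _) (fun S S' h => atom_disj K T _ _ fun h' => h (Subtype.ext h'))
  exact h1.map_fun_eq_pi_map fun S => (hm S).aemeasurable

theorem law : S_LAW.{u} := by
  classical
  intro Ω _ P _ lam Q Q' hQ hQ'
  have hm : Measurable (fun ω => mk (Q ω)) := measurable_iff_comap_le.2 (le_space hQ _)
  have hm' : Measurable (fun ω => mk (Q' ω)) := measurable_iff_comap_le.2 (le_space hQ' _)
  have i1 : IsProbabilityMeasure (P.map (fun ω => mk (Q ω))) :=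
    Measure.isProbabilityMeasure_map hm.aemeasurable
  have i2 : IsProbabilityMeasure (P.map (fun ω => mk (Q' ω))) :=
    Measure.isProbabilityMeasure_map hm'.aemeasurable
  refine ext_of_generate_finite
    (piiUnionInter (fun n : Ixp fin => {s | MeasurableSet[mm pts n.1] s}) Set.univ) ?_
    (isPi pts fin) ?_ (by simp)
  · exact cs_univ_eq.trans (sup_gen pts fin)
  · intro E hE
    have hEm : MeasurableSet E := (cs_univ_eq.trans (sup_gen pts fin)).ge E
      (MeasurableSpace.measurableSet_generateFrom hE)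
    rw [Measure.map_apply hm hEm, Measure.map_apply hm' hEm]
    obtain ⟨T, s, hT, rfl⟩ := pi_repr pts fin hE
    let K : Set ℍ := ⋃ B ∈ T, B
    have hK : MeasurableSet K := Finset.measurableSet_biUnion T fun B hB => (hT B hB).1
    have hKv : volume K ≠ ⊤ := by
      refine ((measure_biUnion_finset_le T _).trans_lt ?_).ne
      exact ENNReal.sum_lt_top.2 fun B hB => (hT B hB).2.lt_top
    obtain ⟨W, hW, hWe⟩ := event_repr K T (fun B hB => Set.subset_biUnion_of_mem (u := fun B => B) hB) s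
    obtain ⟨m1, e1⟩ := vec_law P hQ K T hK fun B hB => (hT B hB).1
    obtain ⟨m2, e2⟩ := vec_law P hQ' K T hK fun B hB => (hT B hB).1
    have f1 : (fun ω => mk (Q ω)) ⁻¹' {A | ∀ B ∈ T, (pts A ∩ B).encard ∈ s B} =
        (fun ω => vec K T (Q ω)) ⁻¹' W := by
      ext ω
      exact hWe (Q ω)
    have f2 : (fun ω => mk (Q' ω)) ⁻¹' {A | ∀ B ∈ T, (pts A ∩ B).encard ∈ s B} =
        (fun ω => vec K T (Q' ω)) ⁻¹' W := by
      ext ω
      exact hWe (Q' ω)
    rw [f1, f2, ← Measure.map_apply m1 hW, ← Measure.map_apply m2 hW, e1, e2]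
    congr 2
    funext S
    refine one_law P hQ hQ' (atom_meas hK (fun B hB => (hT B hB).1) _) ?_
    exact ((measure_mono (atom_sub K T S.1)).trans_lt hKv.lt_top).ne

end

end Pool.Agent.Y202.HM
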