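import Pool.Agent.Y979.HM.Stm

/-!
# Project HM: measurability of the tile sum (job HM-TM)
-/

set_option autoImplicit false

open MeasureTheory ProbabilityTheory UpperHalfPlane Pool.Agent.Y979.HV Pool.Agent.Y979.HM
open scoped ENNReal

namespace Pool.Agent.Y202.HM

noncomputable section

lemma measurable_re' : Measurable (fun z : ℍ => z.re) := UpperHalfPlane.continuous_re.measurable

lemma measurable_im' : Measurable (fun z : ℍ => z.im) := UpperHalfPlane.continuous_im.measurable

lemma tile_meas (p : ℤ × ℤ) : MeasurableSet (tile p) := by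
  unfold tile
  refine (measurableSet_le measurable_const measurable_re').inter
    ((measurableSet_lt measurable_re' measurable_const).inter
    ((measurableSet_le measurable_const measurable_im').inter
    (measurableSet_lt measurable_im' measurable_const)))

lemma psi_meas {X : Type*} [MeasurableSpace X] {Z : Set ℍ} (K : Set (ℤ × ℤ))
    (hZ : MeasurableSet Z) (T : X → Set ℍ)
    (h : ∀ B : Set ℍ, MeasurableSet B → B ⊆ Z → Measurable (fun x => (T x ∩ B).encard)) :
    Measurable (fun x => Psi Z K (T x)) := by
  classical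
  have hc : Measurable (fun k : ℕ∞ => (k : ℝ≥0∞)) := measurable_of_countable _
  unfold Psi
  refine Measurable.ennreal_tsum fun p => Measurable.ennreal_tsum fun L => ?_
  refine Measurable.ite ?_ ?_ measurable_const
  · have e : {x | Bad Z p.1 L (T x)} = ⋃ p' : ℤ × ℤ, {x | dist (ctr p.1) (ctr p') ≤ L + 3 ∧
        Metric.ball (ctr p') (L - 6) ⊆ Z ∧ T x ∩ Metric.ball (ctr p') (L - 6) = ∅} := by
      ext x
      simp only [Bad, Set.mem_ofPred_eq, Set.mem_iUnion]
    rw [e]
    refine MeasurableSet.iUnion fun p' => ?_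
    by_cases h1 : Metric.ball (ctr p') ((L : ℝ) - 6) ⊆ Z
    · have h2 := h _ Metric.isOpen_ball.measurableSet h1
      have e2 : {x | dist (ctr p.1) (ctr p') ≤ L + 3 ∧
        Metric.ball (ctr p') (L - 6) ⊆ Z ∧ T x ∩ Metric.ball (ctr p') (L - 6) = ∅} =
        {x | dist (ctr p.1) (ctr p') ≤ L + 3} ∩
          (fun x => (T x ∩ Metric.ball (ctr p') ((L : ℝ) - 6)).encard) ⁻¹' {0} := by
        ext x
        simp only [Set.mem_ofPred_eq, Set.mem_inter_iff, Set.mem_preimage, Set.mem_singleton_iff,
          Set.encard_eq_zero, h1, true_and]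
      rw [e2]
      exact (MeasurableSet.const _).inter (h2 (measurableSet_singleton _))
    · have e2 : {x | dist (ctr p.1) (ctr p') ≤ L + 3 ∧
        Metric.ball (ctr p') (L - 6) ⊆ Z ∧ T x ∩ Metric.ball (ctr p') (L - 6) = ∅} = ∅ := by
        ext x
        simp only [Set.mem_ofPred_eq, h1, false_and, and_false, Set.mem_empty_iff_false]
      rw [e2]
      exact MeasurableSet.empty
  · refine Measurable.mul (Measurable.mul measurable_const ?_) (Measurable.const_add ?_ _)
    · exact hc.comp (h _ ((tile_meas _).inter hZ) Set.inter_subset_right)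
    · exact hc.comp (h _ (hZ.inter Metric.isClosed_closedBall.measurableSet) Set.inter_subset_left)

theorem tm : S_TM := by
  intro Z K hZ
  refine @psi_meas Conf (cs Z) Z K hZ pts fun B hB hBZ => ?_
  rw [measurable_iff_comap_le]
  exact le_iSup₂_of_le B ⟨hB, hBZ⟩ le_rfl

end

end Pool.Agent.Y202.HM
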